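import Mathlib

/-!
# The Pfaffian, and the two Pfaffian arrays
-/

set_option autoImplicit false

namespace Pool.Agent.Helper46.OSASM

/-- The Pfaffian of a `2m × 2m` matrix:
`Pf A = (1 / (2^m m!)) ∑_σ sgn(σ) ∏_i A (σ (2i)) (σ (2i+1))`. -/
noncomputable def pfaffian {m : ℕ} (A : Matrix (Fin (2 * m)) (Fin (2 * m)) ℚ) : ℚ :=
  (∑ σ : Equiv.Perm (Fin (2 * m)), ((Equiv.Perm.sign σ : ℤ) : ℚ) *
    ∏ i : Fin m, A (σ ⟨2 * (i : ℕ), by omega⟩) (σ ⟨2 * (i : ℕ) + 1, by omega⟩)) /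
      (2 ^ m * (m.factorial : ℚ))

/-- The power series `(y - x) / ((1 - x y) (1 - x - y))` in the variables `x = X 0`, `y = X 1`. -/
noncomputable def gen : MvPowerSeries (Fin 2) ℚ :=
  (MvPowerSeries.X 1 - MvPowerSeries.X 0) *
    ((1 - MvPowerSeries.X 0 * MvPowerSeries.X 1) *
      (1 - MvPowerSeries.X 0 - MvPowerSeries.X 1))⁻¹

/-- `c a b` is the coefficient of `x^a y^b` in `(y - x) / ((1 - x y) (1 - x - y))`. -/
noncomputable def c (a b : ℕ) : ℚ :=
  MvPowerSeries.coeff (Finsupp.single (0 : Fin 2) a + Finsupp.single (1 : Fin 2) b) gen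

/-- The skew-symmetric `(2n+2) × (2n+2)` array, rows and columns indexed by `0, …, 2n+1`, whose
entry in row `a` and column `b` for `a < b` is `c a b` if `b ≤ 2n`, and `v a` if `b = 2n+1`. -/
noncomputable def arr (n : ℕ) (v : ℕ → ℚ) :
    Matrix (Fin (2 * (n + 1))) (Fin (2 * (n + 1))) ℚ := fun a b =>
  if (a : ℕ) < b then (if (b : ℕ) ≤ 2 * n then c a b else v a)
  else if (b : ℕ) < a then -(if (a : ℕ) ≤ 2 * n then c b a else v b)
  else 0

end Pool.Agent.Helper46.OSASM
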