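import Pool.Agent.Helper46.OSASM.Defs

set_option autoImplicit false

namespace Pool.Agent.Helper46.OSASM

open MvPowerSeries Finset

/-! ## Recurrences for the coefficients -/

/-- coefficient extraction -/
noncomputable def co (a b : ℕ) (G : MvPowerSeries (Fin 2) ℚ) : ℚ :=
  coeff (Finsupp.single (0 : Fin 2) a + Finsupp.single (1 : Fin 2) b) G

theorem co_sub (a b : ℕ) (G H : MvPowerSeries (Fin 2) ℚ) :
    co a b (G - H) = co a b G - co a b H := map_sub _ _ _

theorem co_add (a b : ℕ) (G H : MvPowerSeries (Fin 2) ℚ) :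
    co a b (G + H) = co a b G + co a b H := map_add _ _ _

theorem co_X0_succ (a b : ℕ) (G : MvPowerSeries (Fin 2) ℚ) :
    co (a + 1) b (X 0 * G) = co a b G := by
  have e : (Finsupp.single (0 : Fin 2) (a + 1) + Finsupp.single (1 : Fin 2) b) -
      Finsupp.single (0 : Fin 2) 1 = Finsupp.single (0 : Fin 2) a + Finsupp.single (1 : Fin 2) b := by
    ext i
    fin_cases i <;> simp
  unfold co
  rw [X_def, coeff_monomial_mul, if_pos, one_mul, e]
  intro i
  fin_cases i <;> simp

theorem co_X1_succ (a b : ℕ) (G : MvPowerSeries (Fin 2) ℚ) :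
    co a (b + 1) (X 1 * G) = co a b G := by
  have e : (Finsupp.single (0 : Fin 2) a + Finsupp.single (1 : Fin 2) (b + 1)) -
      Finsupp.single (1 : Fin 2) 1 = Finsupp.single (0 : Fin 2) a + Finsupp.single (1 : Fin 2) b := by
    ext i
    fin_cases i <;> simp
  unfold co
  rw [X_def, coeff_monomial_mul, if_pos, one_mul, e]
  intro i
  fin_cases i <;> simp

theorem co_X0_zero (b : ℕ) (G : MvPowerSeries (Fin 2) ℚ) : co 0 b (X 0 * G) = 0 := by
  unfold co
  rw [X_def, coeff_monomial_mul, if_neg]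
  intro h
  have := h 0
  simp at this

theorem co_X1_zero (a : ℕ) (G : MvPowerSeries (Fin 2) ℚ) : co a 0 (X 1 * G) = 0 := by
  unfold co
  rw [X_def, coeff_monomial_mul, if_neg]
  intro h
  have := h 1
  simp at this

theorem gen_mul : gen - X 0 * gen - X 1 * gen - X 0 * (X 1 * gen) + X 0 * (X 0 * (X 1 * gen)) +
    X 0 * (X 1 * (X 1 * gen)) = X 1 * 1 - X 0 * 1 := by
  have h : constantCoeff (σ := Fin 2) (R := ℚ) ((1 - X 0 * X 1) * (1 - X 0 - X 1)) ≠ 0 := by
    simp
  have := MvPowerSeries.mul_inv_cancel _ h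
  have e : ((1 - X 0 * X 1) * (1 - X 0 - X 1)) * gen = X 1 - X 0 := by
    unfold gen
    rw [mul_comm, mul_assoc, mul_comm (_⁻¹), this, mul_one]
  rw [mul_one, mul_one, ← e]
  ring

theorem co_one_zero : co 0 0 (1 : MvPowerSeries (Fin 2) ℚ) = 1 := by
  unfold co; simp

theorem co_one_left (a b : ℕ) : co (a + 1) b (1 : MvPowerSeries (Fin 2) ℚ) = 0 := by
  classical
  unfold co
  rw [coeff_one, if_neg]
  intro h
  have := DFunLike.congr_fun h 0
  simp at this

theorem co_one_right (a b : ℕ) : co a (b + 1) (1 : MvPowerSeries (Fin 2) ℚ) = 0 := by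
  classical
  unfold co
  rw [coeff_one, if_neg]
  intro h
  have := DFunLike.congr_fun h 1
  simp at this

theorem c_rec (a b : ℕ) : c (a + 2) (b + 2) =
    c (a + 1) (b + 2) + c (a + 2) (b + 1) + c (a + 1) (b + 1) - c a (b + 1) - c (a + 1) b := by
  have h := congrArg (co (a + 2) (b + 2)) gen_mul
  simp only [co_add, co_sub, co_X0_succ, co_X1_succ, co_one_left, co_one_right] at h
  change c (a + 2) (b + 2) - c (a + 1) (b + 2) - c (a + 2) (b + 1) - c (a + 1) (b + 1)
    + c a (b + 1) + c (a + 1) b = 0 - 0 at h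
  linarith

theorem c_zero_zero : c 0 0 = 0 := by
  have h := congrArg (co 0 0) gen_mul
  simp only [co_add, co_sub, co_X0_zero, co_X1_zero] at h
  change c 0 0 - 0 - 0 - 0 + 0 + 0 = 0 - 0 at h
  linarith

theorem c_zero_succ (b : ℕ) : c 0 (b + 1) = 1 := by
  induction b with
  | zero =>
    have h := congrArg (co 0 1) gen_mul
    simp only [co_add, co_sub, co_X0_zero, co_X1_succ, co_one_zero] at h
    change c 0 1 - 0 - c 0 0 - 0 + 0 + 0 = 1 - 0 at h
    rw [c_zero_zero] at h
    linarith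
  | succ b ih =>
    have h := congrArg (co 0 (b + 2)) gen_mul
    simp only [co_add, co_sub, co_X0_zero, co_X1_succ, co_one_right] at h
    change c 0 (b + 2) - 0 - c 0 (b + 1) - 0 + 0 + 0 = 0 - 0 at h
    linarith

theorem c_succ_zero (a : ℕ) : c (a + 1) 0 = -1 := by
  induction a with
  | zero =>
    have h := congrArg (co 1 0) gen_mul
    simp only [co_add, co_sub, co_X1_zero, co_X0_succ, co_X0_zero, co_one_zero] at h
    change c 1 0 - c 0 0 - 0 - 0 + 0 + 0 = 0 - 1 at h
    rw [c_zero_zero] at h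
    linarith
  | succ a ih =>
    have h := congrArg (co (a + 2) 0) gen_mul
    simp only [co_add, co_sub, co_X1_zero, co_X0_succ, co_one_left] at h
    change c (a + 2) 0 - c (a + 1) 0 - 0 - 0 + 0 + 0 = 0 - 0 at h
    linarith

theorem c_one (b : ℕ) : c 1 b = b - (if b = 0 then 1 else 0) - (if b = 1 then 1 else 0) := by
  induction b with
  | zero => rw [c_succ_zero]; norm_num
  | succ b ih =>
    rcases b with _ | _ | b
    · have h := congrArg (co 1 1) gen_mul
      simp only [co_add, co_sub, co_X1_succ, co_X0_succ, co_one_left, co_one_right, co_X0_zero,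
        co_X1_zero] at h
      change c 1 1 - c 0 1 - c 1 0 - c 0 0 + 0 + 0 = 0 - 0 at h
      rw [c_zero_succ, c_succ_zero, c_zero_zero] at h
      norm_num
      linarith
    · have h := congrArg (co 1 2) gen_mul
      simp only [co_add, co_sub, co_X1_succ, co_X0_succ, co_one_left, co_one_right, co_X0_zero,
        co_X1_zero] at h
      change c 1 2 - c 0 2 - c 1 1 - c 0 1 + 0 + c 0 0 = 0 - 0 at h
      rw [c_zero_succ, c_zero_succ, c_zero_zero, ih] at h
      norm_num at h ⊢
      linarith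
    · have h := congrArg (co 1 (b + 3)) gen_mul
      simp only [co_add, co_sub, co_X1_succ, co_X0_succ, co_one_left, co_one_right, co_X0_zero]
        at h
      change c 1 (b + 3) - c 0 (b + 3) - c 1 (b + 2) - c 0 (b + 2) + 0 + c 0 (b + 1) = 0 - 0 at h
      rw [c_zero_succ, c_zero_succ, c_zero_succ, ih] at h
      push_cast at h ⊢
      norm_num at h ⊢
      linarith

theorem c_skew (a b : ℕ) : c a b = - c b a := by
  suffices h : ∀ n a b : ℕ, a + b ≤ n → c a b = - c b a from h (a + b) a b le_rfl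
  intro n
  induction n with
  | zero =>
    intro a b hab
    obtain ⟨rfl, rfl⟩ : a = 0 ∧ b = 0 := by omega
    rw [c_zero_zero]; norm_num
  | succ n ih =>
    intro a b hab
    rcases a with _ | _ | a
    · rcases b with _ | b
      · rw [c_zero_zero]; norm_num
      · rw [c_zero_succ, c_succ_zero]; norm_num
    · rcases b with _ | _ | b
      · rw [c_zero_succ, c_succ_zero]
      · rw [c_one]; norm_num
      · have h := congrArg (co (b + 2) 1) gen_mul
        rcases b with _ | b
        · simp only [co_add, co_sub, co_X1_succ, co_X0_succ, co_one_left, co_one_right,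
            co_X0_zero, co_X1_zero] at h
          change c 2 1 - c 1 1 - c 2 0 - c 1 0 + c 0 0 + 0 = 0 - 0 at h
          rw [c_one, c_succ_zero, c_succ_zero, c_zero_zero] at h
          change c 1 2 = - c 2 1
          rw [c_one]
          norm_num at h ⊢
          linarith
        · simp only [co_add, co_sub, co_X1_succ, co_X0_succ, co_one_left, co_one_right,
            co_X0_zero, co_X1_zero] at h
          change c (b + 3) 1 - c (b + 2) 1 - c (b + 3) 0 - c (b + 2) 0 + c (b + 1) 0 + 0 = 0 - 0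
            at h
          have h2 := ih (b + 2) 1 (by omega)
          rw [h2, c_succ_zero, c_succ_zero, c_succ_zero, c_one] at h
          change c 1 (b + 3) = - c (b + 3) 1
          rw [c_one]
          push_cast at h ⊢
          norm_num at h ⊢
          linarith
    · rcases b with _ | _ | b
      · rw [c_zero_succ, c_succ_zero]
      · have h := congrArg (co (a + 2) 1) gen_mul
        rcases a with _ | a
        · simp only [co_add, co_sub, co_X1_succ, co_X0_succ, co_one_left, co_one_right,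
            co_X0_zero, co_X1_zero] at h
          change c 2 1 - c 1 1 - c 2 0 - c 1 0 + c 0 0 + 0 = 0 - 0 at h
          rw [c_one, c_succ_zero, c_succ_zero, c_zero_zero] at h
          change c 2 1 = - c 1 2
          rw [c_one 2]
          norm_num at h ⊢
          linarith
        · simp only [co_add, co_sub, co_X1_succ, co_X0_succ, co_one_left, co_one_right,
            co_X0_zero, co_X1_zero] at h
          change c (a + 3) 1 - c (a + 2) 1 - c (a + 3) 0 - c (a + 2) 0 + c (a + 1) 0 + 0 = 0 - 0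
            at h
          have h2 := ih (a + 2) 1 (by omega)
          rw [h2, c_succ_zero, c_succ_zero, c_succ_zero, c_one] at h
          change c (a + 3) 1 = - c 1 (a + 3)
          rw [c_one (a + 3)]
          push_cast at h ⊢
          norm_num at h ⊢
          linarith
      · rw [c_rec, c_rec, ih (a + 1) (b + 2) (by omega), ih (a + 2) (b + 1) (by omega),
          ih (a + 1) (b + 1) (by omega), ih a (b + 1) (by omega), ih (a + 1) b (by omega)]
        ring

theorem c_self (a : ℕ) : c a a = 0 := by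
  have := c_skew a a
  linarith

/-! ## The binomial transform -/

/-- binomial transform in the first variable -/
def T1 (f : ℕ → ℕ → ℚ) (a b : ℕ) : ℚ :=
  ∑ k ∈ range (a + 1), (-1) ^ k * (a.choose k : ℚ) * f k b

/-- binomial transform in the second variable -/
def T2 (f : ℕ → ℕ → ℚ) (a b : ℕ) : ℚ :=
  ∑ k ∈ range (b + 1), (-1) ^ k * (b.choose k : ℚ) * f a k

/-- one-variable binomial transform -/
def T0 (f : ℕ → ℚ) (a : ℕ) : ℚ := ∑ k ∈ range (a + 1), (-1) ^ k * (a.choose k : ℚ) * f k

theorem T0_succ (f : ℕ → ℚ) (a : ℕ) : T0 f (a + 1) = T0 f a - T0 (fun k => f (k + 1)) a := by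
  unfold T0
  rw [sum_range_succ' _ (a + 1)]
  have h1 : ∀ k ∈ range (a + 1), (-1 : ℚ) ^ (k + 1) * ((a + 1).choose (k + 1) : ℚ) * f (k + 1) =
      (-1) ^ (k + 1) * (a.choose (k + 1) : ℚ) * f (k + 1) -
        (-1) ^ k * (a.choose k : ℚ) * f (k + 1) := by
    intro k _
    rw [Nat.choose_succ_succ]
    push_cast
    ring
  rw [sum_congr rfl h1, sum_sub_distrib]
  have h2 : ∑ k ∈ range (a + 1), (-1 : ℚ) ^ k * (a.choose k : ℚ) * f k =
      ∑ k ∈ range (a + 1), (-1 : ℚ) ^ (k + 1) * (a.choose (k + 1) : ℚ) * f (k + 1) +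
        (-1) ^ 0 * (a.choose 0 : ℚ) * f 0 := by
    rw [← sum_range_succ' (fun k => (-1 : ℚ) ^ k * (a.choose k : ℚ) * f k) (a + 1),
      sum_range_succ _ (a + 1)]
    simp
  rw [h2]
  simp
  ring

theorem T0_add (f g : ℕ → ℚ) (a : ℕ) : T0 (fun k => f k + g k) a = T0 f a + T0 g a := by
  unfold T0
  rw [← sum_add_distrib]
  exact sum_congr rfl fun k _ => by ring

theorem T0_sub (f g : ℕ → ℚ) (a : ℕ) : T0 (fun k => f k - g k) a = T0 f a - T0 g a := by
  unfold T0
  rw [← sum_sub_distrib]
  exact sum_congr rfl fun k _ => by ring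

theorem T1_eq (f : ℕ → ℕ → ℚ) (a b : ℕ) : T1 f a b = T0 (fun k => f k b) a := rfl
theorem T2_eq (f : ℕ → ℕ → ℚ) (a b : ℕ) : T2 f a b = T0 (fun k => f a k) b := rfl

/-- the double binomial transform -/
def T (f : ℕ → ℕ → ℚ) : ℕ → ℕ → ℚ := T1 (T2 f)

/-- shifts -/
def S1 (f : ℕ → ℕ → ℚ) : ℕ → ℕ → ℚ := fun a b => f (a + 1) b
/-- shifts -/
def S2 (f : ℕ → ℕ → ℚ) : ℕ → ℕ → ℚ := fun a b => f a (b + 1)

theorem S1_T (f : ℕ → ℕ → ℚ) : S1 (T f) = T f - T (S1 f) := by
  funext a b
  change T1 (T2 f) (a + 1) b = T1 (T2 f) a b - T1 (T2 (S1 f)) a b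
  rw [T1_eq, T0_succ]
  rfl

theorem T_comm (f : ℕ → ℕ → ℚ) : T f = T2 (T1 f) := by
  funext a b
  unfold T T1 T2
  simp only [mul_sum]
  rw [sum_comm]
  exact sum_congr rfl fun k _ => sum_congr rfl fun l _ => by ring

theorem S2_T (f : ℕ → ℕ → ℚ) : S2 (T f) = T f - T (S2 f) := by
  rw [T_comm, T_comm]
  funext a b
  change T2 (T1 f) a (b + 1) = T2 (T1 f) a b - T2 (T1 (S2 f)) a b
  rw [T2_eq, T0_succ]
  rfl

theorem T_add (f g : ℕ → ℕ → ℚ) : T (f + g) = T f + T g := by
  funext a b
  unfold T T1 T2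
  simp only [Pi.add_apply, mul_sum, ← sum_add_distrib]
  exact sum_congr rfl fun k _ => sum_congr rfl fun l _ => by ring

theorem T_sub (f g : ℕ → ℕ → ℚ) : T (f - g) = T f - T g := by
  funext a b
  unfold T T1 T2
  simp only [Pi.sub_apply, mul_sum, ← sum_sub_distrib]
  exact sum_congr rfl fun k _ => sum_congr rfl fun l _ => by ring

/-- The transform of the recurrence operator. -/
theorem T_rec (f : ℕ → ℕ → ℚ)
    (hf : ∀ a b, f (a + 2) (b + 2) = f (a + 1) (b + 2) + f (a + 2) (b + 1) + f (a + 1) (b + 1)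
      - f a (b + 1) - f (a + 1) b) (a b : ℕ) :
    T f (a + 2) (b + 2) = T f (a + 1) (b + 2) + T f (a + 2) (b + 1) + T f (a + 1) (b + 1)
      - T f a (b + 1) - T f (a + 1) b := by
  have h0 : S1 (S1 (S2 (S2 f))) - S1 (S2 (S2 f)) - S1 (S1 (S2 f)) - S1 (S2 f) + S2 f + S1 f = 0 := by
    funext a b
    simp only [S1, S2, Pi.add_apply, Pi.sub_apply, Pi.zero_apply]
    have := hf a b
    linarith
  have hT := congrArg T h0
  have hz : T 0 = 0 := by
    funext a b
    simp [T, T1, T2]
  simp only [T_add, T_sub, hz] at hT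
  -- express shifts of `T f` through transforms of shifts
  have e1 : S1 (T f) = T f - T (S1 f) := S1_T f
  have e2 : S2 (T f) = T f - T (S2 f) := S2_T f
  have lin1 : ∀ g h : ℕ → ℕ → ℚ, S1 (g - h) = S1 g - S1 h := fun g h => rfl
  have lin2 : ∀ g h : ℕ → ℕ → ℚ, S2 (g - h) = S2 g - S2 h := fun g h => rfl
  have comm : ∀ g : ℕ → ℕ → ℚ, S2 (S1 g) = S1 (S2 g) := fun g => rfl
  have e12 : S1 (S2 (T f)) = T f - T (S1 f) - T (S2 f) + T (S1 (S2 f)) := by
    rw [e2, lin1, S1_T, S1_T]; abel
  have e112 : S1 (S1 (S2 (T f))) = (T f - T (S1 f)) - (T (S1 f) - T (S1 (S1 f))) -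
      (T (S2 f) - T (S1 (S2 f))) + (T (S1 (S2 f)) - T (S1 (S1 (S2 f)))) := by
    have : ∀ g h k l : ℕ → ℕ → ℚ, S1 (g - h - k + l) = S1 g - S1 h - S1 k + S1 l :=
      fun _ _ _ _ => rfl
    rw [e12, this, S1_T, S1_T, S1_T, S1_T]
  have e122 : S1 (S2 (S2 (T f))) = (T f - T (S2 f)) - (T (S1 f) - T (S1 (S2 f))) -
      (T (S2 f) - T (S2 (S2 f))) + (T (S1 (S2 f)) - T (S1 (S2 (S2 f)))) := by
    have : ∀ g h k l : ℕ → ℕ → ℚ, S2 (g - h - k + l) = S2 g - S2 h - S2 k + S2 l :=
      fun _ _ _ _ => rfl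
    rw [← comm, e12, this, S2_T, S2_T, S2_T, S2_T, comm, comm]
  have e1122 : S1 (S1 (S2 (S2 (T f)))) =
      ((T f - T (S1 f)) - (T (S2 f) - T (S1 (S2 f)))) -
      ((T (S1 f) - T (S1 (S1 f))) - (T (S1 (S2 f)) - T (S1 (S1 (S2 f))))) -
      ((T (S2 f) - T (S1 (S2 f))) - (T (S2 (S2 f)) - T (S1 (S2 (S2 f))))) +
      ((T (S1 (S2 f)) - T (S1 (S1 (S2 f)))) -
        (T (S1 (S2 (S2 f))) - T (S1 (S1 (S2 (S2 f)))))) := by
    have : ∀ g h k l m n o p : ℕ → ℕ → ℚ, S1 ((g - h) - (k - l) - (m - n) + (o - p)) =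
        (S1 g - S1 h) - (S1 k - S1 l) - (S1 m - S1 n) + (S1 o - S1 p) :=
      fun _ _ _ _ _ _ _ _ => rfl
    rw [e122, this, S1_T, S1_T, S1_T, S1_T, S1_T, S1_T]
  have final : S1 (S1 (S2 (S2 (T f)))) - S1 (S2 (S2 (T f))) - S1 (S1 (S2 (T f))) - S1 (S2 (T f))
      + S2 (T f) + S1 (T f) = 0 := by
    rw [e1122, e122, e112, e12, e1, e2, ← hT]
    abel
  have := congrFun (congrFun final a) b
  simp only [S1, S2, Pi.add_apply, Pi.sub_apply, Pi.zero_apply] at this
  linarith

theorem T0_one (a : ℕ) : T0 (fun _ => 1) a = if a = 0 then 1 else 0 := by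
  unfold T0
  have h := (add_pow (-1 : ℚ) 1 a)
  simp only [one_pow, mul_one] at h
  rw [sum_congr rfl fun k _ => by rw [mul_one], ← h]
  rcases a with _ | a
  · simp
  · simp

theorem T0_ite (j a : ℕ) : T0 (fun k => if k = j then 1 else 0) a = (-1) ^ j * (a.choose j : ℚ) := by
  unfold T0
  by_cases h : j ≤ a
  · rw [sum_eq_single_of_mem j (mem_range.2 (by omega))]
    · simp
    · intro b _ hb
      simp [hb]
  · rw [sum_eq_zero]
    · rw [Nat.choose_eq_zero_of_lt (by omega)]; simp
    · intro k hk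
      rw [mem_range] at hk
      have : k ≠ j := by omega
      simp [this]

theorem T0_id (a : ℕ) : T0 (fun k => (k : ℚ)) a = if a = 1 then -1 else 0 := by
  induction a with
  | zero => simp [T0]
  | succ a ih =>
    rw [T0_succ]
    have : (fun k : ℕ => (((k + 1 : ℕ)) : ℚ)) = fun k : ℕ => (k : ℚ) + 1 := by
      funext k; push_cast; ring
    rw [this, T0_add, T0_one]
    rcases a with _ | a
    · simp
    · simp

/-- The double binomial transform of `c` is `-c`. -/
theorem T_c : T c = -c := by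
  have hzero : ∀ b, T c 0 b = - c 0 b := by
    intro b
    rw [T_comm, T2_eq]
    have : (fun k => T1 c 0 k) = fun k : ℕ => (1 : ℚ) - (if k = 0 then 1 else 0) := by
      funext k
      rcases k with _ | k
      · simp [T1, c_zero_zero]
      · simp [T1, c_zero_succ]
    rw [this, T0_sub, T0_one, T0_ite]
    rcases b with _ | b
    · simp [c_zero_zero]
    · simp [c_zero_succ]
  have hone : ∀ b, T c 1 b = - c 1 b := by
    intro b
    have h1 : T c 1 b = T c 0 b - T (S1 c) 0 b := congrFun (congrFun (S1_T c) 0) b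
    rw [h1, hzero b]
    have h2 : T (S1 c) 0 b = T0 (fun k => c 1 k) b := by
      rw [T_comm, T2_eq]
      congr 1
      funext k
      simp [T1, S1]
    rw [h2]
    have h3 : (fun k => c 1 k) = fun k : ℕ => ((k : ℚ) - (if k = 0 then 1 else 0)) -
        (if k = 1 then 1 else 0) := by
      funext k; rw [c_one]
    rw [h3, T0_sub, T0_sub, T0_id, T0_ite, T0_ite, c_one]
    rcases b with _ | _ | b
    · simp [c_zero_zero]
    · simp [c_zero_succ]
    · rw [c_zero_succ]
      push_cast
      norm_num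
      ring
  have hskew : ∀ a b, T c a b = - T c b a := by
    intro a b
    unfold T T1 T2
    simp only [mul_sum]
    rw [sum_comm, ← sum_neg_distrib]
    refine sum_congr rfl fun k _ => ?_
    rw [← sum_neg_distrib]
    refine sum_congr rfl fun l _ => ?_
    rw [c_skew l k]; ring
  funext a b
  change T c a b = - c a b
  suffices h : ∀ n a b : ℕ, a + b ≤ n → T c a b = - c a b from h (a + b) a b le_rfl
  intro n
  induction n with
  | zero =>
    intro a b hab
    obtain ⟨rfl, rfl⟩ : a = 0 ∧ b = 0 := by omega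
    exact hzero 0
  | succ n ih =>
    intro a b hab
    rcases a with _ | _ | a
    · exact hzero b
    · exact hone b
    · rcases b with _ | _ | b
      · rw [hskew, hzero, c_skew (a + 2) 0]
      · rw [hskew, c_skew (a + 2) 1]
        rw [show 0 + 1 = 1 from rfl, hone]
      · rw [T_rec c c_rec, c_rec, ih (a + 1) (b + 2) (by omega), ih (a + 2) (b + 1) (by omega),
          ih (a + 1) (b + 1) (by omega), ih a (b + 1) (by omega), ih (a + 1) b (by omega)]
        ring

end Pool.Agent.Helper46.OSASM
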