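import Pool.Agent.Helper46.OSASM.Pf
import Pool.Agent.Helper46.OSASM.Series

set_option autoImplicit false

namespace Pool.Agent.Helper46.OSASM

open Finset

/-- entries of `arr` as a function on pairs of natural numbers -/
noncomputable def alpha (n : ℕ) (v : ℕ → ℚ) (a b : ℕ) : ℚ :=
  if a < b then (if b ≤ 2 * n then c a b else v a)
  else if b < a then -(if a ≤ 2 * n then c b a else v b)
  else 0

theorem arr_eq (n : ℕ) (v : ℕ → ℚ) (a b : Fin (2 * (n + 1))) :
    arr n v a b = alpha n v a b := rfl

theorem alpha_inner (n : ℕ) (v : ℕ → ℚ) {a b : ℕ} (ha : a ≤ 2 * n) (hb : b ≤ 2 * n) :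
    alpha n v a b = c a b := by
  unfold alpha
  rcases lt_trichotomy a b with h | h | h
  · rw [if_pos h, if_pos hb]
  · subst h
    simp [c_self]
  · rw [if_neg (by omega), if_pos h, if_pos ha, ← c_skew]

theorem alpha_last (n : ℕ) (v : ℕ → ℚ) {a : ℕ} (ha : a ≤ 2 * n) :
    alpha n v a (2 * n + 1) = v a := by
  unfold alpha
  rw [if_pos (by omega), if_neg (by omega)]

theorem alpha_last' (n : ℕ) (v : ℕ → ℚ) {a : ℕ} (ha : a ≤ 2 * n) :
    alpha n v (2 * n + 1) a = - v a := by
  unfold alpha
  rw [if_neg (by omega), if_pos (by omega), if_neg (by omega)]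

theorem alpha_self (n : ℕ) (v : ℕ → ℚ) (a : ℕ) : alpha n v a a = 0 := by
  simp [alpha]

/-- entries of the transformation matrix -/
def mu (n : ℕ) (a k : ℕ) : ℚ :=
  if a ≤ 2 * n then (if k ≤ 2 * n then (-1) ^ k * (a.choose k : ℚ) else 0)
  else (if k = a then -1 else 0)

/-- the transformation matrix: `t ↦ 1 - t` on polynomials of degree at most `2n`, and `-1` -/
def muMat (n : ℕ) : Matrix (Fin (2 * (n + 1))) (Fin (2 * (n + 1))) ℚ := fun a b => mu n a b

theorem det_muMat (n : ℕ) : (muMat n).det = - (-1) ^ n := by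
  have h : (muMat n).BlockTriangular OrderDual.toDual := by
    intro i j hij
    have hij' : (i : ℕ) < j := hij
    have hj := j.2
    unfold muMat mu
    split_ifs with h1 h2 h3
    · rw [Nat.choose_eq_zero_of_lt hij']; simp
    · rfl
    · omega
    · rfl
  rw [Matrix.det_of_isLowerTriangular _ h]
  have h1 : ∀ i : Fin (2 * (n + 1)), muMat n i i = (fun k : ℕ => mu n k k) i := fun i => rfl
  rw [Finset.prod_congr rfl fun i _ => h1 i, Fin.prod_univ_eq_prod_range (fun k => mu n k k),
    show 2 * (n + 1) = 2 * n + 1 + 1 from by ring, prod_range_succ]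
  have h2 : ∀ k ∈ range (2 * n + 1), mu n k k = (-1) ^ k := by
    intro k hk
    rw [mem_range] at hk
    unfold mu
    rw [if_pos (by omega), if_pos (by omega)]
    simp
  rw [prod_congr rfl h2]
  have h3 : mu n (2 * n + 1) (2 * n + 1) = -1 := by
    unfold mu
    rw [if_neg (by omega), if_pos rfl]
  rw [h3, mul_neg, mul_one, neg_inj]
  induction n with
  | zero => simp
  | succ n ih =>
    have h4 : ∀ k ∈ range (2 * n + 1), mu n k k = (-1) ^ k := by
      intro k hk
      rw [mem_range] at hk
      unfold mu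
      rw [if_pos (by omega), if_pos (by omega)]
      simp
    have h5 : ∏ i ∈ range (2 * n + 1), (-1 : ℚ) ^ i = (-1) ^ n := by
      clear h h1 h2 h3 h4 ih
      induction n with
      | zero => simp
      | succ n ih =>
        rw [show 2 * (n + 1) + 1 = 2 * n + 1 + 1 + 1 from by ring, prod_range_succ,
          prod_range_succ, ih, pow_succ (-1 : ℚ) n]
        have e1 : (-1 : ℚ) ^ (2 * n + 1) = -1 := by rw [pow_succ, pow_mul]; simp
        have e2 : (-1 : ℚ) ^ (2 * n + 1 + 1) = 1 := by rw [pow_succ, e1]; norm_num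
        rw [e1, e2]; ring
    rw [show 2 * (n + 1) + 1 = 2 * n + 1 + 1 + 1 from by ring, prod_range_succ,
      prod_range_succ, h5, pow_succ (-1 : ℚ) n]
    have e1 : (-1 : ℚ) ^ (2 * n + 1) = -1 := by rw [pow_succ, pow_mul]; simp
    have e2 : (-1 : ℚ) ^ (2 * n + 1 + 1) = 1 := by rw [pow_succ, e1]; norm_num
    rw [e1, e2]; ring

/-- sum of `mu` against a function, for a row `a ≤ 2n` -/
theorem sum_mu (n : ℕ) (f : ℕ → ℚ) {a : ℕ} (ha : a ≤ 2 * n) :
    ∑ k ∈ range (2 * n + 1 + 1), mu n a k * f k = T0 f a := by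
  rw [sum_range_succ]
  have h1 : mu n a (2 * n + 1) = 0 := by
    unfold mu
    rw [if_pos ha, if_neg (by omega)]
  rw [h1, zero_mul, add_zero]
  have h2 : ∀ k ∈ range (2 * n + 1), mu n a k * f k = (-1) ^ k * (a.choose k : ℚ) * f k := by
    intro k hk
    rw [mem_range] at hk
    unfold mu
    rw [if_pos ha, if_pos (by omega)]
  rw [sum_congr rfl h2]
  unfold T0
  symm
  apply sum_subset
  · intro k hk
    rw [mem_range] at hk ⊢
    omega
  · intro k _ hk
    rw [mem_range] at hk
    rw [Nat.choose_eq_zero_of_lt (by omega)]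
    simp

theorem sum_mu_last (n : ℕ) (f : ℕ → ℚ) :
    ∑ k ∈ range (2 * n + 1 + 1), mu n (2 * n + 1) k * f k = - f (2 * n + 1) := by
  rw [sum_eq_single_of_mem (2 * n + 1) (mem_range.2 (by omega))]
  · unfold mu
    rw [if_neg (by omega), if_pos rfl]; ring
  · intro k _ hk
    unfold mu
    rw [if_neg (by omega), if_neg hk]; ring

theorem T0_pow (t : ℚ) (a : ℕ) : T0 (fun k => t ^ k) a = (1 - t) ^ a := by
  unfold T0
  have h := add_pow (-t : ℚ) 1 a
  rw [show (1 - t) = -t + 1 by ring, h]
  refine sum_congr rfl fun k _ => ?_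
  rw [one_pow, mul_one, neg_pow]
  ring

theorem muMat_congr (n : ℕ) (t : ℚ) :
    muMat n * arr n (fun a => t ^ a) * (muMat n).transpose = - arr n (fun a => (1 - t) ^ a) := by
  ext a b
  have ha := a.2
  have hb := b.2
  have e : (muMat n * arr n (fun a => t ^ a) * (muMat n).transpose) a b =
      ∑ k ∈ range (2 * n + 1 + 1), mu n a k *
        (∑ l ∈ range (2 * n + 1 + 1), mu n b l * alpha n (fun a => t ^ a) k l) := by
    rw [Matrix.mul_assoc, Matrix.mul_apply]
    rw [Finset.sum_congr rfl fun k _ => by rw [Matrix.mul_apply]]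
    have h1 : ∀ k : Fin (2 * (n + 1)), muMat n a k * ∑ j : Fin (2 * (n + 1)),
        arr n (fun a => t ^ a) k j * (muMat n).transpose j b =
        (fun k : ℕ => mu n a k * ∑ l ∈ range (2 * n + 1 + 1), mu n b l *
          alpha n (fun a => t ^ a) k l) k := by
      intro k
      have h2 : ∀ j : Fin (2 * (n + 1)), arr n (fun a => t ^ a) k j * (muMat n).transpose j b =
          (fun l : ℕ => mu n b l * alpha n (fun a => t ^ a) k l) j := by
        intro j
        rw [arr_eq, Matrix.transpose_apply, mul_comm]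
        rfl
      rw [Finset.sum_congr rfl fun j _ => h2 j,
        Fin.sum_univ_eq_sum_range (fun l : ℕ => mu n b l * alpha n (fun a => t ^ a) k l)]
      rfl
    rw [Finset.sum_congr rfl fun k _ => h1 k,
      Fin.sum_univ_eq_sum_range (fun k : ℕ => mu n a k * ∑ l ∈ range (2 * n + 1 + 1),
        mu n b l * alpha n (fun a => t ^ a) k l)]
    rfl
  rw [e, Matrix.neg_apply, arr_eq]
  by_cases ha' : (a : ℕ) ≤ 2 * n
  · rw [sum_mu n (fun k => ∑ l ∈ range (2 * n + 1 + 1), mu n b l *
      alpha n (fun a => t ^ a) k l) ha']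
    by_cases hb' : (b : ℕ) ≤ 2 * n
    · -- both inner
      rw [alpha_inner n _ ha' hb']
      have h1 : T0 (fun k => ∑ l ∈ range (2 * n + 1 + 1), mu n b l *
          alpha n (fun a => t ^ a) k l) a = T c a b := by
        unfold T
        rw [T1_eq]
        unfold T0
        refine sum_congr rfl fun k hk => ?_
        rw [mem_range] at hk
        congr 1
        beta_reduce
        rw [sum_mu n (fun l => alpha n (fun a => t ^ a) k l) hb', T2_eq]
        unfold T0
        refine sum_congr rfl fun l hl => ?_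
        rw [mem_range] at hl
        beta_reduce
        rw [alpha_inner n _ (by omega) (by omega)]
      rw [h1, T_c]
      rfl
    · -- last column
      have hb2 : (b : ℕ) = 2 * n + 1 := by omega
      rw [hb2, alpha_last n _ ha']
      have h1 : T0 (fun k => ∑ l ∈ range (2 * n + 1 + 1), mu n (2 * n + 1) l *
          alpha n (fun a => t ^ a) k l) a = T0 (fun k => - t ^ k) a := by
        unfold T0
        refine sum_congr rfl fun k hk => ?_
        rw [mem_range] at hk
        beta_reduce
        rw [sum_mu_last n (fun l => alpha n (fun a => t ^ a) k l), alpha_last n _ (by omega)]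
      rw [h1]
      have h2 : T0 (fun k => - t ^ k) a = - T0 (fun k => t ^ k) a := by
        unfold T0
        rw [← sum_neg_distrib]
        exact sum_congr rfl fun k _ => by ring
      rw [h2, T0_pow]
  · have ha2 : (a : ℕ) = 2 * n + 1 := by omega
    rw [ha2, sum_mu_last n (fun k => ∑ l ∈ range (2 * n + 1 + 1), mu n b l *
      alpha n (fun a => t ^ a) k l)]
    by_cases hb' : (b : ℕ) ≤ 2 * n
    · rw [sum_mu n (fun l => alpha n (fun a => t ^ a) (2 * n + 1) l) hb', alpha_last' n _ hb']
      have h1 : T0 (fun l => alpha n (fun a => t ^ a) (2 * n + 1) l) b = - T0 (fun l => t ^ l) b := by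
        unfold T0
        rw [← sum_neg_distrib]
        refine sum_congr rfl fun l hl => ?_
        rw [mem_range] at hl
        beta_reduce
        rw [alpha_last' n _ (by omega)]; ring
      rw [h1, T0_pow]
    · have hb2 : (b : ℕ) = 2 * n + 1 := by omega
      rw [hb2, sum_mu_last n (fun l => alpha n (fun a => t ^ a) (2 * n + 1) l), alpha_self,
        alpha_self]
      ring

/-- The key symmetry. -/
theorem pfaffian_symm (n : ℕ) (t : ℚ) :
    pfaffian (arr n (fun a => t ^ a)) = pfaffian (arr n (fun a => (1 - t) ^ a)) := by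
  have h1 := pfaffian_congruence (muMat n) (arr n (fun a => t ^ a))
  rw [muMat_congr, pfaffian_neg, det_muMat, pow_succ] at h1
  have h2 : ((-1 : ℚ) ^ n) ≠ 0 := pow_ne_zero _ (by norm_num)
  have h3 : (-1 : ℚ) ^ n * (pfaffian (arr n (fun a => t ^ a)) -
      pfaffian (arr n (fun a => (1 - t) ^ a))) = 0 := by linarith
  have := (mul_eq_zero.1 h3).resolve_left h2
  linarith

theorem pfaffian_arr_linear (n : ℕ) (α β : ℚ) (v w : ℕ → ℚ) :
    pfaffian (arr n (fun a => α * v a + β * w a)) =
      α * pfaffian (arr n v) + β * pfaffian (arr n w) := by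
  have key : ∀ (u u' : ℕ → ℚ) (i j : Fin (2 * (n + 1))), i ≠ ⟨2 * n + 1, by omega⟩ →
      j ≠ ⟨2 * n + 1, by omega⟩ → arr n u i j = arr n u' i j := by
    intro u u' i j hi hj
    have hi' : (i : ℕ) ≠ 2 * n + 1 := fun h => hi (Fin.ext h)
    have hj' : (j : ℕ) ≠ 2 * n + 1 := fun h => hj (Fin.ext h)
    rw [arr_eq, arr_eq, alpha_inner n _ (by omega) (by omega),
      alpha_inner n _ (by omega) (by omega)]
  refine pfaffian_linear ⟨2 * n + 1, by omega⟩ α β _ _ _ (key _ _) (key _ _) ?_
  intro i j hne h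
  have hne' : (i : ℕ) ≠ j := fun h => hne (Fin.ext h)
  rcases h with rfl | rfl
  · have hj' : (j : ℕ) ≤ 2 * n := by
      have := j.2
      simp only at hne'
      omega
    simp only [arr_eq]
    rw [alpha_last' n _ hj', alpha_last' n _ hj', alpha_last' n _ hj']
    ring
  · have hi' : (i : ℕ) ≤ 2 * n := by
      have := i.2
      simp only at hne'
      omega
    simp only [arr_eq]
    rw [alpha_last n _ hi', alpha_last n _ hi', alpha_last n _ hi']

theorem identity (n : ℕ) : pfaffian (arr n (fun a => (-1) ^ a)) =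
    pfaffian (arr n (fun a => ((-1) ^ a + 2 ^ a) / 2)) := by
  have h1 : (fun a : ℕ => (((-1 : ℚ)) ^ a + 2 ^ a) / 2) =
      fun a => (1 / 2 : ℚ) * (-1) ^ a + (1 / 2 : ℚ) * 2 ^ a := by
    funext a; ring
  have h2 := pfaffian_symm n 2
  rw [show (1 - 2 : ℚ) = -1 by norm_num] at h2
  rw [h1, pfaffian_arr_linear, h2]
  ring

end Pool.Agent.Helper46.OSASM
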