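import Pool.Agent.Helper46.OSASM.Defs

set_option autoImplicit false

namespace Pool.Agent.Helper46.OSASM

open Equiv Equiv.Perm

/-- split the product over `Fin (2m)` in pairs -/
theorem prod_pairs {R : Type*} [CommMonoid R] {m : ℕ} (F : Fin (2 * m) → R) :
    ∏ j : Fin (2 * m), F j =
      ∏ i : Fin m, F ⟨2 * (i : ℕ), by omega⟩ * F ⟨2 * (i : ℕ) + 1, by omega⟩ := by
  rw [← Equiv.prod_comp (finProdFinEquiv.trans (finCongr (Nat.mul_comm m 2))) F,
    Fintype.prod_prod_type]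
  refine Finset.prod_congr rfl fun i _ => ?_
  rw [Fin.prod_univ_two]
  congr 1 <;> congr 1 <;> ext <;> simp [finProdFinEquiv, Nat.add_comm]

/-- functions on `Fin (2m)` are pairs of functions on `Fin m` -/
def pairEquiv (m : ℕ) (α : Type*) : (Fin (2 * m) → α) ≃ (Fin m → α × α) where
  toFun f i := (f ⟨2 * (i : ℕ), by omega⟩, f ⟨2 * (i : ℕ) + 1, by omega⟩)
  invFun g j := if (j : ℕ) % 2 = 0 then (g ⟨(j : ℕ) / 2, by omega⟩).1
    else (g ⟨(j : ℕ) / 2, by omega⟩).2
  left_inv f := by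
    funext j
    rcases Nat.mod_two_eq_zero_or_one j with h | h
    · simp only [h, if_true]
      congr 1; ext; simp; omega
    · simp only [h]
      simp only [one_ne_zero, if_false]
      congr 1; ext; simp; omega
  right_inv g := by
    funext i
    ext
    · simp
    · simp only
      have h1 : (2 * (i : ℕ) + 1) % 2 = 1 := by omega
      have h2 : (2 * (i : ℕ) + 1) / 2 = i := by omega
      simp [h1, h2]

/-- the unnormalised Pfaffian -/
noncomputable def pfSum {m : ℕ} (A : Matrix (Fin (2 * m)) (Fin (2 * m)) ℚ) : ℚ :=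
  ∑ σ : Equiv.Perm (Fin (2 * m)), ((Equiv.Perm.sign σ : ℤ) : ℚ) *
    ∏ i : Fin m, A (σ ⟨2 * (i : ℕ), by omega⟩) (σ ⟨2 * (i : ℕ) + 1, by omega⟩)

theorem pfaffian_eq {m : ℕ} (A : Matrix (Fin (2 * m)) (Fin (2 * m)) ℚ) :
    pfaffian A = pfSum A / (2 ^ m * (m.factorial : ℚ)) := rfl

theorem pfSum_congruence {m : ℕ} (M A : Matrix (Fin (2 * m)) (Fin (2 * m)) ℚ) :
    pfSum (M * A * M.transpose) = M.det * pfSum A := by
  classical
  -- expand the product of sums
  have expand : ∀ σ : Equiv.Perm (Fin (2 * m)),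
      (∏ i : Fin m, (M * A * M.transpose) (σ ⟨2 * (i : ℕ), by omega⟩)
        (σ ⟨2 * (i : ℕ) + 1, by omega⟩)) =
      ∑ f : Fin (2 * m) → Fin (2 * m), (∏ i : Fin m, A (f ⟨2 * (i : ℕ), by omega⟩)
        (f ⟨2 * (i : ℕ) + 1, by omega⟩)) * ∏ j, M (σ j) (f j) := by
    intro σ
    have h1 : ∀ i : Fin m, (M * A * M.transpose) (σ ⟨2 * (i : ℕ), by omega⟩)
        (σ ⟨2 * (i : ℕ) + 1, by omega⟩) =
        ∑ p : Fin (2 * m) × Fin (2 * m), A p.1 p.2 * (M (σ ⟨2 * (i : ℕ), by omega⟩) p.1 *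
          M (σ ⟨2 * (i : ℕ) + 1, by omega⟩) p.2) := by
      intro i
      rw [Matrix.mul_apply, Fintype.sum_prod_type, Finset.sum_comm]
      refine Finset.sum_congr rfl fun l _ => ?_
      rw [Matrix.mul_apply, Finset.sum_mul]
      refine Finset.sum_congr rfl fun k _ => ?_
      rw [Matrix.transpose_apply]; ring
    rw [Finset.prod_congr rfl fun i _ => h1 i, Finset.prod_univ_sum, Fintype.piFinset_univ,
      ← Equiv.sum_comp (pairEquiv m (Fin (2 * m)))]
    refine Finset.sum_congr rfl fun f _ => ?_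
    rw [prod_pairs (fun j => M (σ j) (f j)), ← Finset.prod_mul_distrib]
    rfl
  have step : pfSum (M * A * M.transpose) =
      ∑ f : Fin (2 * m) → Fin (2 * m), (∏ i : Fin m, A (f ⟨2 * (i : ℕ), by omega⟩)
        (f ⟨2 * (i : ℕ) + 1, by omega⟩)) * (M.submatrix id f).det := by
    unfold pfSum
    rw [Finset.sum_congr rfl fun σ _ => by rw [expand σ, Finset.mul_sum]]
    rw [Finset.sum_comm]
    refine Finset.sum_congr rfl fun f _ => ?_
    rw [Matrix.det_apply', Finset.mul_sum]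
    refine Finset.sum_congr rfl fun σ _ => ?_
    simp only [Matrix.submatrix_apply, id]
    ring
  rw [step]
  -- only bijective `f` contribute
  have h2 : ∀ f : Fin (2 * m) → Fin (2 * m), f ∉ (Finset.univ.filter fun f :
      Fin (2 * m) → Fin (2 * m) => Function.Bijective f) →
      (∏ i : Fin m, A (f ⟨2 * (i : ℕ), by omega⟩)
        (f ⟨2 * (i : ℕ) + 1, by omega⟩)) * (M.submatrix id f).det = 0 := by
    intro f hf
    have hnb : ¬ Function.Injective f := fun h => hf (by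
      simp only [Finset.mem_filter, Finset.mem_univ, true_and]
      exact ⟨h, Finite.surjective_of_injective h⟩)
    have : ∃ a b, a ≠ b ∧ f a = f b := by
      by_contra! hcon
      exact hnb fun a b hab => by
        by_contra hne
        exact hcon a b hne hab
    obtain ⟨a, b, hne, hab⟩ := this
    rw [Matrix.det_zero_of_column_eq hne (by intro k; simp [hab]), mul_zero]
  rw [← Finset.sum_subset (Finset.subset_univ _) fun f _ hf => h2 f hf]
  unfold pfSum
  rw [Finset.mul_sum]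
  symm
  refine Finset.sum_bij (fun (σ : Equiv.Perm (Fin (2 * m))) _ => (σ : Fin (2 * m) → Fin (2 * m)))
    ?_ ?_ ?_ ?_
  · intro σ _
    exact Finset.mem_filter.2 ⟨Finset.mem_univ _, σ.bijective⟩
  · intro σ _ τ _ h
    exact Equiv.coe_fn_injective h
  · intro f hf
    simp only [Finset.mem_filter, Finset.mem_univ, true_and] at hf
    exact ⟨Equiv.ofBijective f hf, Finset.mem_univ _, rfl⟩
  · intro σ _
    rw [Matrix.det_permute']
    ring

theorem pfaffian_congruence {m : ℕ} (M A : Matrix (Fin (2 * m)) (Fin (2 * m)) ℚ) :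
    pfaffian (M * A * M.transpose) = M.det * pfaffian A := by
  rw [pfaffian_eq, pfaffian_eq, pfSum_congruence, mul_div_assoc]

theorem pfaffian_neg {m : ℕ} (A : Matrix (Fin (2 * m)) (Fin (2 * m)) ℚ) :
    pfaffian (-A) = (-1) ^ m * pfaffian A := by
  rw [pfaffian_eq, pfaffian_eq, ← mul_div_assoc]
  congr 1
  unfold pfSum
  rw [Finset.mul_sum]
  refine Finset.sum_congr rfl fun σ _ => ?_
  have : ∏ i : Fin m, (-A) (σ ⟨2 * (i : ℕ), by omega⟩) (σ ⟨2 * (i : ℕ) + 1, by omega⟩) =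
      (-1) ^ m * ∏ i : Fin m, A (σ ⟨2 * (i : ℕ), by omega⟩) (σ ⟨2 * (i : ℕ) + 1, by omega⟩) := by
    simp only [Matrix.neg_apply]
    rw [Finset.prod_neg]
    simp
  rw [this]; ring

/-- The Pfaffian is linear in a row and the corresponding column. -/
theorem pfaffian_linear {m : ℕ} (p : Fin (2 * m)) (α β : ℚ)
    (A B D : Matrix (Fin (2 * m)) (Fin (2 * m)) ℚ)
    (hA : ∀ i j, i ≠ p → j ≠ p → A i j = D i j) (hB : ∀ i j, i ≠ p → j ≠ p → B i j = D i j)
    (h : ∀ i j, i ≠ j → (i = p ∨ j = p) → D i j = α * A i j + β * B i j) :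
    pfaffian D = α * pfaffian A + β * pfaffian B := by
  classical
  rw [pfaffian_eq, pfaffian_eq, pfaffian_eq, ← mul_div_assoc, ← mul_div_assoc, ← add_div]
  congr 1
  unfold pfSum
  rw [Finset.mul_sum, Finset.mul_sum, ← Finset.sum_add_distrib]
  refine Finset.sum_congr rfl fun σ _ => ?_
  -- the factor containing `p`
  have hlt : ((σ.symm p : Fin (2 * m)) : ℕ) < 2 * m := (σ.symm p).2
  let i₀ : Fin m := ⟨(σ.symm p : Fin (2 * m)) / 2, by omega⟩
  have key : ∀ i : Fin m, i ≠ i₀ → (σ ⟨2 * (i : ℕ), by omega⟩ ≠ p ∧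
      σ ⟨2 * (i : ℕ) + 1, by omega⟩ ≠ p) := by
    intro i hi
    constructor
    · intro h'
      apply hi
      rw [← Equiv.eq_symm_apply] at h'
      apply Fin.ext
      have := congrArg Fin.val h'
      simp only [i₀] at this ⊢
      omega
    · intro h'
      apply hi
      rw [← Equiv.eq_symm_apply] at h'
      apply Fin.ext
      have := congrArg Fin.val h'
      simp only [i₀] at this ⊢
      omega
  have hp : σ ⟨2 * (i₀ : ℕ), by omega⟩ = p ∨ σ ⟨2 * (i₀ : ℕ) + 1, by omega⟩ = p := by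
    rcases Nat.mod_two_eq_zero_or_one (σ.symm p : Fin (2 * m)) with h' | h'
    · left
      rw [← Equiv.eq_symm_apply]
      apply Fin.ext
      simp only [i₀]; omega
    · right
      rw [← Equiv.eq_symm_apply]
      apply Fin.ext
      simp only [i₀]; omega
  have hne : σ ⟨2 * (i₀ : ℕ), by omega⟩ ≠ σ ⟨2 * (i₀ : ℕ) + 1, by omega⟩ := by
    intro h'
    have := congrArg Fin.val (σ.injective h')
    simp at this
  rw [← Finset.mul_prod_erase Finset.univ
      (fun i : Fin m => D (σ ⟨2 * (i : ℕ), by omega⟩) (σ ⟨2 * (i : ℕ) + 1, by omega⟩))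
      (Finset.mem_univ i₀),
    ← Finset.mul_prod_erase Finset.univ
      (fun i : Fin m => A (σ ⟨2 * (i : ℕ), by omega⟩) (σ ⟨2 * (i : ℕ) + 1, by omega⟩))
      (Finset.mem_univ i₀),
    ← Finset.mul_prod_erase Finset.univ
      (fun i : Fin m => B (σ ⟨2 * (i : ℕ), by omega⟩) (σ ⟨2 * (i : ℕ) + 1, by omega⟩))
      (Finset.mem_univ i₀)]
  have eA : ∏ i ∈ Finset.univ.erase i₀, A (σ ⟨2 * (i : ℕ), by omega⟩)
      (σ ⟨2 * (i : ℕ) + 1, by omega⟩) = ∏ i ∈ Finset.univ.erase i₀,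
      D (σ ⟨2 * (i : ℕ), by omega⟩) (σ ⟨2 * (i : ℕ) + 1, by omega⟩) :=
    Finset.prod_congr rfl fun i hi => hA _ _ (key i (Finset.ne_of_mem_erase hi)).1
      (key i (Finset.ne_of_mem_erase hi)).2
  have eB : ∏ i ∈ Finset.univ.erase i₀, B (σ ⟨2 * (i : ℕ), by omega⟩)
      (σ ⟨2 * (i : ℕ) + 1, by omega⟩) = ∏ i ∈ Finset.univ.erase i₀,
      D (σ ⟨2 * (i : ℕ), by omega⟩) (σ ⟨2 * (i : ℕ) + 1, by omega⟩) :=
    Finset.prod_congr rfl fun i hi => hB _ _ (key i (Finset.ne_of_mem_erase hi)).1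
      (key i (Finset.ne_of_mem_erase hi)).2
  rw [eA, eB, h _ _ hne hp]
  ring

end Pool.Agent.Helper46.OSASM
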